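import Mathlib
import Pool.Agent.H200.Torus7

/-!
# Staying probabilities of long walks in two-coloured tori: the case `k = 2`

For `k = 2` and `t = 2` the achievable region is the hexagon with the vertices `(0, 0)`, `(1/2, (1/2) ^ t)`,
`(3/4, (3/4) ^ t)`, `((1/2) ^ t, 1/2)`, `((3/4) ^ t, 3/4)`, `(1, 1)`. We show that for every `t ≥ 3` the achievable
region contains the corresponding hexagon but is strictly larger.
-/

set_option autoImplicit false

namespace Pool.Agent.Results.MP_183c3b_co.LargerThanPolygon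

open Pool.Agent.H200.Torus

theorem result (t : ℕ) (ht : 3 ≤ t) :
    convexHull ℝ {((0 : ℝ), (0 : ℝ)), (1 / 2, (1 / 2) ^ t), (3 / 4, (3 / 4) ^ t), ((1 / 2) ^ t, 1 / 2),
      ((3 / 4) ^ t, 3 / 4), (1, 1)} ⊂ Region 2 t := by
  have ht1 : 1 ≤ t := by omega
  have hsub : convexHull ℝ {((0 : ℝ), (0 : ℝ)), (1 / 2, (1 / 2) ^ t), (3 / 4, (3 / 4) ^ t), ((1 / 2) ^ t, 1 / 2),
      ((3 / 4) ^ t, 3 / 4), (1, 1)} ⊆ Region 2 t := by
    refine convexHull_min ?_ (region_convex (by norm_num) t)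
    have p1 := point_mem (K := 2) (q := 1) (by norm_num) ht1 le_rfl (by norm_num)
    have p2 := point_mem (K := 2) (q := 2) (by norm_num) ht1 (by norm_num) (by norm_num)
    have p4 := point_mem (K := 2) (q := 4) (by norm_num) ht1 (by norm_num) (by norm_num)
    have z : ((0 : ℝ)) ^ t = 0 := zero_pow (by omega)
    have q1 : ((0 : ℝ), (0 : ℝ)) ∈ Region 2 t := by
      have e : (1 : ℝ) - 1 / ((1 : ℕ) : ℝ) = 0 := by norm_num
      rw [e, z] at p1
      exact p1
    have q2 : ((1 : ℝ) / 2, ((1 : ℝ) / 2) ^ t) ∈ Region 2 t := by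
      have e : (1 : ℝ) - 1 / ((2 : ℕ) : ℝ) = 1 / 2 := by norm_num
      rw [e] at p2
      exact p2
    have q4 : ((3 : ℝ) / 4, ((3 : ℝ) / 4) ^ t) ∈ Region 2 t := by
      have e : (1 : ℝ) - 1 / ((4 : ℕ) : ℝ) = 3 / 4 := by norm_num
      rw [e] at p4
      exact p4
    rintro p (rfl | rfl | rfl | rfl | rfl | rfl)
    · exact q1
    · exact q2
    · exact q4
    · exact region_swap q2
    · exact region_swap q4
    · exact one_one_mem (by norm_num)
  refine (Set.ssubset_iff_of_subset hsub).2 ⟨_, point7 ht1, ?_⟩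
  intro hmem
  -- the half plane above the chord
  set A : ℝ := (1 / 2) ^ t with hA
  set B : ℝ := (3 / 4) ^ t with hB
  have hA0 : 0 < A := by positivity
  have hB0 : 0 < B := by positivity
  have hB1 : B ≤ 27 / 64 := by
    calc B ≤ (3 / 4) ^ 3 := pow_le_pow_of_le_one (by norm_num) (by norm_num) ht
      _ = 27 / 64 := by norm_num
  have hA1 : A ≤ 1 / 8 := by
    calc A ≤ (1 / 2) ^ 3 := pow_le_pow_of_le_one (by norm_num) (by norm_num) ht
      _ = 1 / 8 := by norm_num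
  have hBA : 27 / 8 * A ≤ B := by
    have h1 : B = (3 / 2) ^ t * A := by
      rw [hA, hB, ← mul_pow]
      norm_num
    have h2 : ((3 : ℝ) / 2) ^ 3 ≤ (3 / 2) ^ t := pow_le_pow_right₀ (by norm_num) ht
    rw [h1]
    refine mul_le_mul_of_nonneg_right ?_ hA0.le
    calc (27 : ℝ) / 8 = (3 / 2) ^ 3 := by norm_num
      _ ≤ _ := h2
  have hconv : Convex ℝ {p : ℝ × ℝ | A + 4 * (B - A) * (p.1 - 1 / 2) ≤ p.2} := by
    intro p hp q hq a b ha hb hab
    simp only [Set.mem_ofPred_eq, Prod.fst_add, Prod.snd_add, Prod.smul_fst, Prod.smul_snd, smul_eq_mul] at hp hq ⊢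
    have hb' : b = 1 - a := by linarith
    subst hb'
    nlinarith [mul_le_mul_of_nonneg_left hp ha, mul_le_mul_of_nonneg_left hq hb]
  have hhull : convexHull ℝ {((0 : ℝ), (0 : ℝ)), (1 / 2, A), (3 / 4, B), (A, 1 / 2), (B, 3 / 4), (1, 1)} ⊆
      {p : ℝ × ℝ | A + 4 * (B - A) * (p.1 - 1 / 2) ≤ p.2} := by
    refine convexHull_min ?_ hconv
    rintro p (rfl | rfl | rfl | rfl | rfl | rfl) <;> simp only [Set.mem_ofPred_eq] <;> nlinarith
  have h := hhull hmem
  simp only [Set.mem_ofPred_eq] at h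
  have hG : ((GG t : ℕ) : ℝ) < 2 * 3 ^ t + 3 * 2 ^ t := by exact_mod_cast GG_lt t ht
  have h4 : (0 : ℝ) < 4 ^ t := by positivity
  have e1 : (2 * 3 ^ t + 3 * 2 ^ t : ℝ) / (5 * 4 ^ t) = 2 / 5 * B + 3 / 5 * A := by
    rw [hA, hB, div_pow, div_pow]
    have : (4 : ℝ) ^ t = 2 ^ t * 2 ^ t := by
      rw [← mul_pow]
      norm_num
    rw [this]
    field_simp
    ring
  have h5 : (GG t : ℝ) / (5 * 4 ^ t) < 2 / 5 * B + 3 / 5 * A := by
    rw [← e1]
    exact div_lt_div_of_pos_right hG (by positivity)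
  nlinarith

end Pool.Agent.Results.MP_183c3b_co.LargerThanPolygon
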