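import Mathlib
import Pool.Agent.H200.Torus6

/-!
# Staying probabilities of long walks in two-coloured tori

`Region k t` is the achievable region `A_{k,t}`. For every `k ≥ 1` and `t ≥ 1` it lies between a polygon and
a region with curved sides, and the two touch at the vertices of the polygon:

* every point `(x, y)` of `A_{k,t}` satisfies `x ^ t ≤ y` and `y ^ t ≤ x`;
* `A_{k,t}` contains the convex hull of `(1, 1)` and of the points `(1 - 1/q, (1 - 1/q) ^ t)` and
  `((1 - 1/q) ^ t, 1 - 1/q)`, where `q` runs through the divisors of `2 k`.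
-/

set_option autoImplicit false

namespace Pool.Agent.Results.MP_183c3b_co.RegionBounds

open Pool.Agent.H200.Torus

theorem result (k t : ℕ) (hk : 1 ≤ k) (ht : 1 ≤ t) :
    convexHull ℝ (insert ((1 : ℝ), (1 : ℝ)) {p : ℝ × ℝ | ∃ q : ℕ, 1 ≤ q ∧ q ∣ 2 * k ∧
      (p = (1 - 1 / (q : ℝ), (1 - 1 / (q : ℝ)) ^ t) ∨ p = ((1 - 1 / (q : ℝ)) ^ t, 1 - 1 / (q : ℝ)))}) ⊆
      Region k t ∧
    Region k t ⊆ {p : ℝ × ℝ | 0 ≤ p.1 ∧ p.1 ≤ 1 ∧ 0 ≤ p.2 ∧ p.2 ≤ 1 ∧ p.1 ^ t ≤ p.2 ∧ p.2 ^ t ≤ p.1} := by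
  refine ⟨convexHull_min ?_ (region_convex hk t), ?_⟩
  · rintro p (rfl | ⟨q, hq, hqk, rfl | rfl⟩)
    · exact one_one_mem hk
    · exact point_mem hk ht hq hqk
    · exact region_swap (point_mem hk ht hq hqk)
  · intro p hp
    have h1 := region_outer hk ht hp
    obtain ⟨n, R, -, hR, h2, h3⟩ := hp
    have hb : ∀ j, ∀ S : Set (Fin k → ZMod (n j)), 0 ≤ prob t S ∧ prob t S ≤ 1 := by
      intro j S
      have : NeZero (n j) := ⟨by have := (hR j).1; omega⟩
      rw [prob_eq]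
      refine ⟨div_nonneg (Finset.sum_nonneg fun x _ => stay_nonneg S t x) (Nat.cast_nonneg _), ?_⟩
      refine div_le_one_of_le₀ ?_ (Nat.cast_nonneg _)
      have h4 : ∀ s, ∑ x, stay S s x ≤ ∑ x, stay S 0 x := by
        intro s
        induction s with
        | zero => exact le_rfl
        | succ s ih => exact (Finset.sum_le_sum fun x _ => stay_anti hk S s x).trans ih
      exact (h4 t).trans (le_of_eq (sum_zero_ncard S))
    exact ⟨ge_of_tendsto' h2 fun j => (hb j _).1, le_of_tendsto' h2 fun j => (hb j _).2,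
      ge_of_tendsto' h3 fun j => (hb j _).1, le_of_tendsto' h3 fun j => (hb j _).2, h1.1, h1.2⟩

end Pool.Agent.Results.MP_183c3b_co.RegionBounds
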